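import Pool.Agent.H61.KV.TS

/-!
# Module IND of the board kv_modules: common minimum points
-/

open Topology Set Filter
open Pool.Agent.H59 Pool.Agent.H64.LB Pool.Agent.H61.KU
open scoped unitInterval

namespace Pool.Agent.H85.KV.IND

open Pool.Agent.H61.KV

/-- the real form of T_PRM -/
def PRMr : Prop :=
  ∀ (C : Set (E4 × E5)) (P : E4 → E5 → E4), IsCC C → Prj C P → ∀ (Z : Set E4) (K : Set E5),
    IsCompact Z → (∀ z ∈ Z, Pz C z) → IsCompact K → K ⊆ interior (Bs C) →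
    ∃ ε₀ : ℝ, 0 < ε₀ ∧ ∃ M : ℝ, ∀ ε : ℝ, 0 < ε → ε ≤ ε₀ → ∀ z ∈ Z, ∀ b ∈ K,
      ‖P (-((1 / ε) • z)) b‖ ≤ M ∧ Pz C (z + ε • P (-((1 / ε) • z)) b) ∧
      Min C (z + ε • P (-((1 / ε) • z)) b) (P (-((1 / ε) • z)) b) b

theorem pf_IND (h1 : T_PRC) (h2 : PRMr) (h3 : T_MNM) (h4 : T_LFM) (h5 : T_OPN) (h6 : T_CNC) :
    T_IND := by
  intro m p hstd b₀ hb₀ Z hZc hZv hZp
  obtain ⟨hCC, -, -, -, -, -, -, -⟩ := h6 (E4 × E5) m hstd.cfg
  by_cases hb : b₀ = 0
  · subst hb
    refine ⟨0, fun z hz => ⟨hCC.zero, fun a ha => ?_⟩⟩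
    rw [inner_zero_right]
    by_cases ha0 : a = 0
    · rw [ha0, inner_zero_right]
    · exact (hZp z hz a ha ha0).le
  rcases Z.eq_empty_or_nonempty with hZe | ⟨z₁, hz₁⟩
  · exact ⟨0, fun z hz => by rw [hZe] at hz; exact absurd hz (notMem_empty z)⟩
  -- a functional with value one at `b₀`
  obtain ⟨η, hη⟩ : ∃ η : E5 →ₗ[ℝ] ℝ, η b₀ = 1 := by
    refine ⟨((‖b₀‖ ^ 2)⁻¹ : ℝ) • ((innerSL ℝ b₀ : E5 →L[ℝ] ℝ) : E5 →ₗ[ℝ] ℝ), ?_⟩
    have hn : ‖b₀‖ ^ 2 ≠ 0 := pow_ne_zero 2 (norm_ne_zero_iff.mpr hb)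
    show (‖b₀‖ ^ 2)⁻¹ * inner ℝ b₀ b₀ = 1
    rw [real_inner_self_eq_norm_sq, inv_mul_cancel₀ hn]
  obtain ⟨P, hP⟩ := h1 (Cn m) hCC
  obtain ⟨r, hr, hball⟩ := (Metric.nhds_basis_closedBall.mem_iff).mp
    (isOpen_interior.mem_nhds hb₀)
  obtain ⟨ε₀, hε₀, M, hM⟩ := h2 (Cn m) P hCC hP Z (Metric.closedBall b₀ r) hZc hZp
    (isCompact_closedBall b₀ r) hball
  have hb₀K : b₀ ∈ Metric.closedBall b₀ r := Metric.mem_closedBall_self hr.le
  have claim : ∀ ε : ℝ, 0 < ε → ε ≤ ε₀ → ∀ z ∈ Z, ∀ z' ∈ Z,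
      P (-((1 / ε) • z)) b₀ = P (-((1 / ε) • z')) b₀ := by
    intro ε hε hεε z hz z' hz'
    set zs : I → E4 := fun s => (1 - (s : ℝ)) • z + (s : ℝ) • z' with hzs
    have hzsZ : ∀ s, zs s ∈ Z := fun s =>
      hZv hz hz' (by have := s.2.2; linarith) s.2.1 (by ring)
    set y : I → E4 := fun s => -((1 / ε) • zs s) with hy
    have hyc : Continuous y := by
      have : Continuous zs := by
        refine Continuous.add ?_ ?_
        · exact (continuous_const.sub continuous_subtype_val).smul continuous_const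
        · exact continuous_subtype_val.smul continuous_const
      exact (this.const_smul (1 / ε)).neg
    have hMh : ∀ s, ∀ b ∈ Metric.closedBall b₀ r, (P (y s) b, b) ∈ Mh m := by
      intro s b hbK
      obtain ⟨-, hp, hmin⟩ := hM ε hε hεε (zs s) (hzsZ s) b hbK
      exact h3 m p hstd _ _ b hp (hball hbK) hmin
    have hφc : Continuous (fun s : I => ((P (y s) b₀, b₀) : E4 × E5)) := by
      have hc1 : Continuous (fun s : I => P (y s) b₀) := by
        have := hP.2.comp_continuous (f := fun s : I => ((y s, b₀) : E4 × E5))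
          (hyc.prodMk continuous_const) (fun s => ⟨mem_univ _, hb₀⟩)
        exact this
      exact hc1.prodMk continuous_const
    obtain ⟨ψ, hψ⟩ := h4 (E4 × E5) m hstd.cfg I (fun s => (P (y s) b₀, b₀)) hφc (fun s =>
      ⟨hMh s b₀ hb₀K, fun h => hb (congrArg Prod.snd h)⟩)
    have hloc : IsLocallyConstant (fun s : I => P (y s) b₀) := by
      rw [IsLocallyConstant.iff_eventually_eq]
      intro s₀
      have hcont : ContinuousOn (fun b => P (y s₀) b) (Metric.ball b₀ r) := by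
        have : ContinuousOn (fun b : E5 => ((y s₀, b) : E4 × E5)) (Metric.ball b₀ r) :=
          (continuous_const.prodMk continuous_id).continuousOn
        exact hP.2.comp this (fun b hbb => ⟨mem_univ _, hball (Metric.ball_subset_closedBall hbb)⟩)
      have hN := h5 m hstd.cfg η (Metric.ball b₀ r) (fun b => P (y s₀) b) Metric.isOpen_ball hcont
        (fun b hbb _ => hMh s₀ b (Metric.ball_subset_closedBall hbb))
      have hmem : ψ s₀ ∈ {x : PN 2 | ∃ (c : ℝ) (b : E5), 0 < c ∧ b ∈ Metric.ball b₀ r ∧ η b = 1 ∧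
          m x = c • (P (y s₀) b, b)} := by
        obtain ⟨c, hc, hcs⟩ := hψ s₀
        refine ⟨c⁻¹, b₀, inv_pos.mpr hc, Metric.mem_ball_self hr, hη, ?_⟩
        rw [hcs, smul_smul, inv_mul_cancel₀ hc.ne', one_smul]
      have hev := ψ.continuous.continuousAt.preimage_mem_nhds (hN.mem_nhds hmem)
      filter_upwards [hev] with s hs
      obtain ⟨c', b, hc', -, hηb, hmb⟩ := hs
      obtain ⟨c, hc, hcs⟩ := hψ s
      have hcs' : ((P (y s) b₀, b₀) : E4 × E5) = (c * c') • ((P (y s₀) b, b) : E4 × E5) := by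
        have h7 : ((P (y s) b₀, b₀) : E4 × E5) = c • m (ψ s) := hcs
        rw [h7, hmb, smul_smul]
      have e1 : P (y s) b₀ = (c * c') • P (y s₀) b := congrArg Prod.fst hcs'
      have e2 : b₀ = (c * c') • b := congrArg Prod.snd hcs'
      have e3 : c * c' = 1 := by
        have h7 := congrArg η e2
        rw [hη, map_smul, hηb, smul_eq_mul, mul_one] at h7
        exact h7.symm
      rw [e3, one_smul] at e1 e2
      rw [e1, e2]
    have h7 := hloc.apply_eq_of_preconnectedSpace (0 : I) 1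
    have e0 : y 0 = -((1 / ε) • z) := by
      simp only [hy, hzs]
      simp
    have e1 : y 1 = -((1 / ε) • z') := by
      simp only [hy, hzs]
      simp
    simp only [e0, e1] at h7
    exact h7
  -- the limit
  set e : ℕ → ℝ := fun n => ε₀ / ((n : ℝ) + 1) with he
  have he0 : ∀ n, 0 < e n := fun n => by positivity
  have hele : ∀ n, e n ≤ ε₀ := fun n => by
    rw [he]
    exact div_le_self hε₀.le (by have : (0 : ℝ) ≤ n := Nat.cast_nonneg n; linarith)
  have helim : Tendsto e atTop (𝓝 0) := by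
    have := (tendsto_one_div_add_atTop_nhds_zero_nat (𝕜 := ℝ)).const_mul ε₀
    rw [mul_zero] at this
    refine this.congr fun n => ?_
    rw [he, mul_one_div]
  set a : ℕ → E4 := fun n => P (-((1 / e n) • z₁)) b₀ with ha
  have haM : ∀ n, a n ∈ Metric.closedBall (0 : E4) M := fun n => by
    rw [mem_closedBall_zero_iff]
    exact (hM (e n) (he0 n) (hele n) z₁ hz₁ b₀ hb₀K).1
  obtain ⟨a₀, -, φ, hφ, hlim⟩ := (isCompact_closedBall (0 : E4) M).tendsto_subseq haM
  refine ⟨a₀, fun z hz => ?_⟩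
  have haC : ∀ n, (a n, b₀) ∈ Cn m := fun n => (hP.1 _ b₀ hb₀).1
  have heφ : Tendsto (fun n => e (φ n)) atTop (𝓝 0) := helim.comp hφ.tendsto_atTop
  have hlim' : Tendsto (fun n => a (φ n)) atTop (𝓝 a₀) := hlim
  constructor
  · have h7 : Tendsto (fun n => ((a (φ n), b₀) : E4 × E5)) atTop (𝓝 (a₀, b₀)) :=
      hlim'.prodMk_nhds tendsto_const_nhds
    exact hCC.closed.mem_of_tendsto h7 (Eventually.of_forall fun n => haC _)
  · intro x hx
    have hzl : Tendsto (fun n => z + e (φ n) • a (φ n)) atTop (𝓝 z) := by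
      have h7 := (heφ.smul hlim').const_add z
      rw [zero_smul, add_zero] at h7
      exact h7
    have hl1 : Tendsto (fun n => inner ℝ (z + e (φ n) • a (φ n)) (a (φ n))) atTop
        (𝓝 (inner ℝ z a₀)) := hzl.inner hlim'
    have hl2 : Tendsto (fun n => inner ℝ (z + e (φ n) • a (φ n)) x) atTop (𝓝 (inner ℝ z x)) :=
      hzl.inner tendsto_const_nhds
    refine le_of_tendsto_of_tendsto' hl1 hl2 fun n => ?_
    have h8 := (hM (e (φ n)) (he0 _) (hele _) z hz b₀ hb₀K).2.2.2 x hx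
    have h9 : P (-((1 / e (φ n)) • z)) b₀ = a (φ n) :=
      claim (e (φ n)) (he0 _) (hele _) z hz z₁ hz₁
    rw [h9] at h8
    exact h8

end Pool.Agent.H85.KV.IND
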