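import Pool.Agent.H61.KV.TN

/-!
# Module STP of the board kv_modules: intersections of two members of a pencil
-/

open Topology Set
open Pool.Agent.H59 Pool.Agent.H64.LB

namespace Pool.Agent.H85.KV.STP

open Pool.Agent.H61.KU Pool.Agent.H61.KV

theorem map_incS2 {Y : Type} [TopologicalSpace Y] {U V W : Set Y} (h : U ⊆ V) (h' : V ⊆ W) (q : ℕ)
    (z : HH (ZMod 2) q U) :
    HH.map (ZMod 2) q (incS h') (HH.map (ZMod 2) q (incS h) z) =
      HH.map (ZMod 2) q (incS (h.trans h')) z := by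
  rw [← HH.map_comp]
  rfl

theorem map_inc2 {Y : Type} [TopologicalSpace Y] {U V : Set Y} (h : U ⊆ V) (q : ℕ)
    (z : HH (ZMod 2) q U) :
    HH.map (ZMod 2) q (inc V) (HH.map (ZMod 2) q (incS h) z) = HH.map (ZMod 2) q (inc U) z := by
  rw [← HH.map_comp]
  rfl

/-- the retraction of the line to the unit interval -/
noncomputable def cl (x : ℝ) : ℝ := max 0 (min x 1)

theorem cl_mem (x : ℝ) : 0 ≤ cl x ∧ cl x ≤ 1 :=
  ⟨le_max_left _ _, max_le zero_le_one (min_le_right _ _)⟩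

theorem cl_mono {x y : ℝ} (h : x ≤ y) : cl x ≤ cl y := max_le_max le_rfl (min_le_min h le_rfl)

theorem cl_of {x : ℝ} (h0 : 0 ≤ x) (h1 : x ≤ 1) : cl x = x := by
  unfold cl
  rw [min_eq_left h1, max_eq_right h0]

theorem cl_lip (x y : ℝ) : |cl x - cl y| ≤ |x - y| := by
  unfold cl
  refine (abs_max_sub_max_le_max _ _ _ _).trans ?_
  rw [sub_self, abs_zero]
  refine max_le (abs_nonneg _) ?_
  refine (abs_min_sub_min_le_max _ _ _ _).trans ?_
  rw [sub_self, abs_zero]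
  exact max_le le_rfl (abs_nonneg _)

section

variable {Y : Type} [TopologicalSpace Y] (B : Set Y) (u₀ u₁ : Y → ℝ)

/-- the member of the pencil -/
def Yt (t : ℝ) : Set Y := B ∩ {y | 0 < (1 - t) * u₀ y + t * u₁ y}

/-- the intersection of two members -/
def I (x y : ℝ) : Set Y := Yt B u₀ u₁ (cl x) ∩ Yt B u₀ u₁ (cl y)

omit [TopologicalSpace Y] in
/-- positivity at two points gives positivity between them -/
theorem conv {a b t : ℝ} (h1 : a ≤ t) (h2 : t ≤ b) {y : Y} (ha : y ∈ Yt B u₀ u₁ a)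
    (hb : y ∈ Yt B u₀ u₁ b) : y ∈ Yt B u₀ u₁ t := by
  refine ⟨ha.1, ?_⟩
  have h3 : 0 < (1 - a) * u₀ y + a * u₁ y := ha.2
  have h4 : 0 < (1 - b) * u₀ y + b * u₁ y := hb.2
  show 0 < (1 - t) * u₀ y + t * u₁ y
  rcases eq_or_lt_of_le h1 with h5 | h5
  · rw [← h5]; exact h3
  · have h6 : 0 < b - a := by linarith
    have e : (b - a) * ((1 - t) * u₀ y + t * u₁ y) =
        (b - t) * ((1 - a) * u₀ y + a * u₁ y) + (t - a) * ((1 - b) * u₀ y + b * u₁ y) := by ring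
    have h7 : 0 < (b - a) * ((1 - t) * u₀ y + t * u₁ y) := by
      rw [e]
      have := mul_nonneg (sub_nonneg.mpr h2) h3.le
      have := mul_pos (sub_pos.mpr h5) h4
      linarith
    exact (pos_iff_pos_of_mul_pos h7).mp h6

omit [TopologicalSpace Y] in
/-- positivity between two points gives positivity at one of them -/
theorem disj {a b t : ℝ} (h1 : a ≤ t) (h2 : t ≤ b) {y : Y} (ht : y ∈ Yt B u₀ u₁ t) :
    y ∈ Yt B u₀ u₁ a ∨ y ∈ Yt B u₀ u₁ b := by
  by_contra hcon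
  rw [not_or] at hcon
  have h3 : ¬ 0 < (1 - a) * u₀ y + a * u₁ y := fun h => hcon.1 ⟨ht.1, h⟩
  have h4 : ¬ 0 < (1 - b) * u₀ y + b * u₁ y := fun h => hcon.2 ⟨ht.1, h⟩
  have h5 : 0 < (1 - t) * u₀ y + t * u₁ y := ht.2
  rcases eq_or_lt_of_le (h1.trans h2) with h6 | h6
  · have : a = t := le_antisymm h1 (by rw [h6]; exact h2)
    rw [this] at h3
    exact h3 h5
  · have e : (b - a) * ((1 - t) * u₀ y + t * u₁ y) =
        (b - t) * ((1 - a) * u₀ y + a * u₁ y) + (t - a) * ((1 - b) * u₀ y + b * u₁ y) := by ring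
    have h7 : 0 < (b - a) * ((1 - t) * u₀ y + t * u₁ y) := mul_pos (by linarith) h5
    rw [e] at h7
    have h8 := mul_nonneg (sub_nonneg.mpr h2) (neg_nonneg.mpr (not_lt.mp h3))
    have h9 := mul_nonneg (sub_nonneg.mpr h1) (neg_nonneg.mpr (not_lt.mp h4))
    linarith

variable {B u₀ u₁}

theorem openYt (hB : IsOpen B) (h0 : Continuous u₀) (h1 : Continuous u₁) (t : ℝ) :
    IsOpen (Yt B u₀ u₁ t) :=
  hB.inter (isOpen_lt continuous_const ((h0.const_mul _).add (h1.const_mul _)))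

omit [TopologicalSpace Y] in
theorem sub01 (x : ℝ) : B ∩ {y | 0 < u₀ y} ∩ {y | 0 < u₁ y} ⊆ Yt B u₀ u₁ (cl x) := by
  rintro y ⟨⟨hyB, hy0⟩, hy1⟩
  have h0 : y ∈ Yt B u₀ u₁ 0 := ⟨hyB, by
    show 0 < (1 - 0) * u₀ y + 0 * u₁ y
    simpa using hy0⟩
  have h1 : y ∈ Yt B u₀ u₁ 1 := ⟨hyB, by
    show 0 < (1 - 1) * u₀ y + 1 * u₁ y
    simpa using hy1⟩
  exact conv B u₀ u₁ (cl_mem x).1 (cl_mem x).2 h0 h1

omit [TopologicalSpace Y] in
theorem subI (x y : ℝ) : B ∩ {y | 0 < u₀ y} ∩ {y | 0 < u₁ y} ⊆ I B u₀ u₁ x y :=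
  subset_inter (sub01 x) (sub01 y)

theorem key (hM : T_MVS) (hC : T_CS) (hQ : T_COU) (hB : IsOpen B) (h0 : Continuous u₀)
    (h1 : Continuous u₁) (q : ℕ)
    (hs : ∀ c, 0 ≤ c → c ≤ 1 → Subsingleton (HH (ZMod 2) (q + 1) (Yt B u₀ u₁ c)))
    (z : HH (ZMod 2) q ↥(B ∩ {y | 0 < u₀ y} ∩ {y | 0 < u₁ y}))
    (hz : ∀ c, 0 ≤ c → c ≤ 1 → ∀ h : B ∩ {y | 0 < u₀ y} ∩ {y | 0 < u₁ y} ⊆ Yt B u₀ u₁ c,
      HH.map (ZMod 2) q (incS h) z = 0) : z = 0 := by
  have hopen := openYt hB h0 h1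
  have main := hQ (fun x y => HH.map (ZMod 2) q (incS (subI (B := B) (u₀ := u₀) (u₁ := u₁) x y)) z
    = 0) 0 1 zero_le_one ?_ ?_ ?_
  · have hsub : I B u₀ u₁ 0 1 ⊆ B ∩ {y | 0 < u₀ y} ∩ {y | 0 < u₁ y} := by
      rintro y ⟨h2, h3⟩
      rw [cl_of le_rfl zero_le_one] at h2
      rw [cl_of zero_le_one le_rfl] at h3
      have h4 : 0 < (1 - 0) * u₀ y + 0 * u₁ y := h2.2
      have h5 : 0 < (1 - 1) * u₀ y + 1 * u₁ y := h3.2
      refine ⟨⟨h2.1, ?_⟩, ?_⟩
      · show 0 < u₀ y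
        linarith
      · show 0 < u₁ y
        linarith
    have e := map_incS2 (subI (B := B) (u₀ := u₀) (u₁ := u₁) 0 1) hsub q z
    rw [main, map_zero] at e
    have e2 : HH.map (ZMod 2) q (incS ((subI (B := B) (u₀ := u₀) (u₁ := u₁) 0 1).trans hsub)) z
        = z := by
      have e3 : incS ((subI (B := B) (u₀ := u₀) (u₁ := u₁) 0 1).trans hsub) =
        ContinuousMap.id _ := rfl
      rw [e3, HH.map_id]
    rw [e2] at e
    exact e.symm
  · intro x x' y' y hx hxy hy h2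
    have hsub : I B u₀ u₁ x y ⊆ I B u₀ u₁ x' y' := by
      rintro w ⟨h3, h4⟩
      exact ⟨conv B u₀ u₁ (cl_mono hx) (cl_mono (hxy.trans hy)) h3 h4,
        conv B u₀ u₁ (cl_mono (hx.trans hxy)) (cl_mono hy) h3 h4⟩
    have e := map_incS2 (subI (B := B) (u₀ := u₀) (u₁ := u₁) x y) hsub q z
    rw [h2, map_zero] at e
    exact e.symm
  · intro x y w hxy hyw hy h2 h3
    obtain ⟨M⟩ := hM (ZMod 2)
    have hcy : cl y = y := cl_of hy.1 hy.2
    have hun : I B u₀ u₁ x y ∪ I B u₀ u₁ y w = Yt B u₀ u₁ y := by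
      ext v
      constructor
      · rintro (⟨-, h4⟩ | ⟨h4, -⟩)
        · rw [hcy] at h4; exact h4
        · rw [hcy] at h4; exact h4
      · intro h4
        have h4' : v ∈ Yt B u₀ u₁ (cl y) := by rw [hcy]; exact h4
        rcases disj B u₀ u₁ (cl_mono hxy) (cl_mono hyw) h4' with h5 | h5
        · exact Or.inl ⟨h5, h4'⟩
        · exact Or.inr ⟨h4', h5⟩
    have hss : Subsingleton (HH (ZMod 2) (q + 1) ↥(I B u₀ u₁ x y ∪ I B u₀ u₁ y w)) := by
      rw [hun]
      exact hs y hy.1 hy.2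
    have hUo : IsOpen (I B u₀ u₁ x y) := (hopen _).inter (hopen _)
    have hVo : IsOpen (I B u₀ u₁ y w) := (hopen _).inter (hopen _)
    have hUV : B ∩ {y | 0 < u₀ y} ∩ {y | 0 < u₁ y} ⊆ I B u₀ u₁ x y ∩ I B u₀ u₁ y w :=
      subset_inter (subI x y) (subI y w)
    obtain ⟨ζ, hζ⟩ := (M.exact_inter Y _ _ hUo hVo q (HH.map (ZMod 2) q (incS hUV) z)).1
      ⟨(map_incS2 hUV inter_subset_left q z).trans h2,
        (map_incS2 hUV inter_subset_right q z).trans h3⟩
    have hζ0 : ζ = 0 := Subsingleton.elim _ _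
    rw [hζ0, map_zero] at hζ
    have hsub : I B u₀ u₁ x y ∩ I B u₀ u₁ y w ⊆ I B u₀ u₁ x w := by
      rintro v ⟨⟨h4, -⟩, -, h5⟩
      exact ⟨h4, h5⟩
    have e := map_incS2 hUV hsub q z
    rw [← hζ, map_zero] at e
    exact e.symm
  · rintro c ⟨hc0, hc1⟩
    have hcc : cl c = c := cl_of hc0 hc1
    set F : Set (Set Y) := {U | ∃ e : ℝ, 0 < e ∧ U = I B u₀ u₁ (c - e) (c + e)} with hF
    have hFo : ∀ U ∈ F, IsOpen U := by
      rintro U ⟨e, -, rfl⟩
      exact (hopen _).inter (hopen _)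
    have hmonoF : ∀ e e' : ℝ, e' ≤ e → I B u₀ u₁ (c - e) (c + e) ⊆ I B u₀ u₁ (c - e') (c + e') ∨
        e' < 0 := by
      intro e e' h
      by_cases h' : e' < 0
      · exact Or.inr h'
      · left
        rintro w ⟨h3, h4⟩
        have h5 : c - e ≤ c - e' := by linarith
        have h6 : c - e' ≤ c + e' := by linarith [not_lt.mp h']
        have h7 : c + e' ≤ c + e := by linarith
        exact ⟨conv B u₀ u₁ (cl_mono h5) (cl_mono (h6.trans h7)) h3 h4,
          conv B u₀ u₁ (cl_mono (h5.trans h6)) (cl_mono h7) h3 h4⟩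
    have hFn : F.Nonempty := ⟨_, 1, one_pos, rfl⟩
    have hFd : DirectedOn (· ⊆ ·) F := by
      rintro U ⟨e, he, rfl⟩ V ⟨e', he', rfl⟩
      have hm : 0 < min e e' := lt_min he he'
      refine ⟨_, ⟨min e e', hm, rfl⟩, ?_, ?_⟩
      · exact (hmonoF e _ (min_le_left _ _)).resolve_right (not_lt.mpr hm.le)
      · exact (hmonoF e' _ (min_le_right _ _)).resolve_right (not_lt.mpr hm.le)
    have hUn : ⋃₀ F = Yt B u₀ u₁ c := by
      ext v
      constructor
      · rintro ⟨U, ⟨e, he, rfl⟩, h3, h4⟩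
        have := conv B u₀ u₁ (t := cl c) (cl_mono (by linarith : c - e ≤ c))
          (cl_mono (by linarith : c ≤ c + e)) h3 h4
        rw [hcc] at this
        exact this
      · intro hv
        have hpos : 0 < (1 - c) * u₀ v + c * u₁ v := hv.2
        set D : ℝ := |u₁ v - u₀ v| + 1 with hD
        have hD0 : 0 < D := by positivity
        set e : ℝ := ((1 - c) * u₀ v + c * u₁ v) / (2 * D) with he
        have he0 : 0 < e := by positivity
        have hgen : ∀ s : ℝ, |s - c| ≤ e → v ∈ Yt B u₀ u₁ (cl s) := by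
          intro s hsc
          refine ⟨hv.1, ?_⟩
          show 0 < (1 - cl s) * u₀ v + cl s * u₁ v
          have h3 : |cl s - c| ≤ e := by
            have := cl_lip s c
            rw [hcc] at this
            exact this.trans hsc
          have h4 : |(cl s - c) * (u₁ v - u₀ v)| ≤ e * D := by
            rw [abs_mul]
            exact mul_le_mul h3 (by rw [hD]; linarith) (abs_nonneg _) he0.le
          have h5 : e * D = ((1 - c) * u₀ v + c * u₁ v) / 2 := by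
            rw [he]; field_simp
          have h6 := (abs_le.mp h4).1
          have h7 : (1 - cl s) * u₀ v + cl s * u₁ v =
            ((1 - c) * u₀ v + c * u₁ v) + (cl s - c) * (u₁ v - u₀ v) := by ring
          rw [h7]
          linarith
        refine ⟨_, ⟨e, he0, rfl⟩, hgen _ ?_, hgen _ ?_⟩
        · rw [show c - e - c = -e by ring, abs_neg, abs_of_pos he0]
        · rw [show c + e - c = e by ring, abs_of_pos he0]
    have hU1 : I B u₀ u₁ (c - 1) (c + 1) ∈ F := ⟨1, one_pos, rfl⟩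
    have hzero : HH.map (ZMod 2) q (incS (subset_sUnion_of_mem hU1))
        (HH.map (ZMod 2) q (incS (subI (B := B) (u₀ := u₀) (u₁ := u₁) (c - 1) (c + 1))) z) = 0 := by
      rw [map_incS2]
      have hsub : ⋃₀ F ⊆ Yt B u₀ u₁ c := hUn.le
      have hsub' : Yt B u₀ u₁ c ⊆ ⋃₀ F := hUn.ge
      have hW : B ∩ {y | 0 < u₀ y} ∩ {y | 0 < u₁ y} ⊆ Yt B u₀ u₁ c := by
        have := sub01 (B := B) (u₀ := u₀) (u₁ := u₁) c
        rw [hcc] at this
        exact this
      have e := map_incS2 hW hsub' q z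
      rw [hz c hc0 hc1 hW, map_zero] at e
      exact e.symm
    obtain ⟨V, ⟨e, he, rfl⟩, h, h2⟩ := (hC (ZMod 2) Y F hFo hFn hFd q).2 _ hU1 _ hzero
    refine ⟨e, he, ?_⟩
    rw [map_incS2] at h2
    exact h2

end

theorem pf_STP (hC : T_COU) (hM : T_MVS) (hS : T_CS) : T_STP := by
  intro Y _ B u₀ u₁ n hB h0 h1 hAC'
  have hAC : ∀ c : ℝ, 0 ≤ c → c ≤ 1 → AC (n + 1) (Yt B u₀ u₁ c) := hAC'
  constructor
  · rw [injective_iff_map_eq_zero]
    intro z hz
    refine key hM hS hC hB h0 h1 0 (fun c hc0 hc1 => ?_) z (fun c hc0 hc1 h => ?_)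
    · exact (hAC c hc0 hc1).2 1 le_rfl (by omega)
    · apply (hAC c hc0 hc1).1
      rw [map_zero]
      have := map_inc2 h 0 z
      rw [hz] at this
      exact this
  · intro q hq1 hqn
    refine ⟨fun a b => ?_⟩
    have hk : ∀ z : HH (ZMod 2) q ↥(B ∩ {y | 0 < u₀ y} ∩ {y | 0 < u₁ y}), z = 0 := by
      intro z
      refine key hM hS hC hB h0 h1 q (fun c hc0 hc1 => ?_) z (fun c hc0 hc1 h => ?_)
      · exact (hAC c hc0 hc1).2 (q + 1) (by omega) (by omega)
      · have := (hAC c hc0 hc1).2 q hq1 (by omega)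
        exact Subsingleton.elim _ _
    rw [hk a, hk b]

end Pool.Agent.H85.KV.STP
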